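import Pool.Agent.helper96.LK.SpecM

/-!
# Project lk, module UV: the pulled back field
-/

open PowerSeries Filter

noncomputable section

namespace Pool.Agent.LK

open Pool.Agent.helper59.LC Pool.Agent.helper59.LD

theorem UV_half (A : Type) [CommRing A] [Algebra ℚ A] : 2 * qc A (1 / 2) = 1 := by
  have h := qc_mul (A := A) (2 : ℚ) (1 / 2)
  have h2 : qc A (2 : ℚ) = 2 := by
    have := qc_nat (A := A) 2
    exact_mod_cast this
  rw [h2] at h
  rw [← h, show (2 : ℚ) * (1 / 2) = 1 by norm_num, qc_one]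

theorem UV_three (A : Type) [CommRing A] [Algebra ℚ A] : qc A (3 / 2) = 1 + qc A (1 / 2) := by
  rw [← qc_one (A := A), ← qc_add]
  norm_num

theorem UV_cst (A : Type) [CommRing A] [Algebra ℚ A] (D : ℚ) :
    qc A (-1 / (2 * D)) = -(qc A (1 / 2) * qc A (1 / D)) := by
  rw [← qc_mul]
  have h : qc A (-(1 / 2 * (1 / D))) = -(qc A (1 / 2 * (1 / D))) := map_neg _ _
  rw [← h]
  congr 1
  rw [div_mul_div_comm, one_mul, neg_div]

/-- `F_e (z - 1) = -1/2 z f_e(z)` -/
theorem UV_Fp {A : Type} [CommRing A] [Algebra ℚ A] (e : A) (z : MvPolynomial (Fin 2) A) :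
    Fp (z - 1) (gq e) = -(MvPolynomial.C (qc A (1 / 2)) * (z * fh e z)) := by
  have h2 : 2 * (MvPolynomial.C (qc A (1 / 2)) : MvPolynomial (Fin 2) A) = 1 := by
    have := congrArg (MvPolynomial.C (σ := Fin 2)) (UV_half A)
    rw [map_mul, map_one, map_ofNat] at this
    exact this
  have h3 : Fp (z - 1) (gq e) = (z - 1) + (z - 1) ^ 2 * ((1 + MvPolynomial.C (qc A (1 / 2)) -
      MvPolynomial.C (qc A (1 / 2)) * MvPolynomial.C e) + (MvPolynomial.C (qc A (1 / 2)) -
      MvPolynomial.C (qc A (1 / 2)) * MvPolynomial.C e) * (z - 1)) := by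
    rw [Fp, FF, gq, UV_three]
    simp only [map_add, map_mul, map_sub, map_pow, map_one, Polynomial.aeval_X,
      Polynomial.aeval_C, MvPolynomial.algebraMap_eq]
  rw [h3, fh]
  linear_combination (-(z - 1) * z) * h2

/-- module UV -/
theorem UV (hLOW : LOW_stmt) : UV_stmt := by
  intro A _ _ a e e' ha
  obtain ⟨-, -, -, h10, -, h11⟩ := hLOW A a ha
  obtain ⟨n, rfl⟩ : ∃ n, a = n + 1 := ⟨a - 1, by omega⟩
  have hP0 : PP (pT A (n + 1)) 0 = xP A (n + 1) ^ (n + 1) * yP A (n + 1) - 1 := by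
    rw [PP, pT, if_pos rfl]
    ring
  have hP1 : PP (pT A (n + 1)) 1 = xP A (n + 1) * yP A (n + 1) ^ (n + 1) - 1 := by
    rw [PP, pT, if_neg (by decide)]
    ring
  rw [UU, h11, h10, hP0, hP1]
  have hg0 : gT e e' 0 = gq e := if_pos rfl
  have hg1 : gT e e' 1 = gq e' := if_neg (by decide)
  rw [hg0, hg1, UV_Fp, UV_Fp, VV, den, UV_cst]
  rw [MvPolynomial.C_neg, MvPolynomial.C_mul]
  have hn : n + 1 - 1 = n := by omega
  rw [hn]
  generalize MvPolynomial.C (qc A (1 / 2)) = h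
  generalize MvPolynomial.C (qc A (1 / (((n + 1 : ℕ) : ℚ) ^ 2 - 1))) = d
  generalize fh e (xP A (n + 1) ^ (n + 1) * yP A (n + 1)) = f
  generalize fh e' (xP A (n + 1) * yP A (n + 1) ^ (n + 1)) = f'
  ring

end Pool.Agent.LK
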